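import Pool.Agent.W994.NC.Bridge
import Pool.Agent.W997.DB.Stmt

/-!
# Functions in NC and in small space, but not in small time and small space
-/

set_option autoImplicit false

namespace Pool.Agent.W994.NC

open Finset
open Pool.Agent.W994.DE
open Pool.Agent.H554R2.Thrifty (BP)
open Pool.Agent.W997.DB (Word Var Input value circ circ_size circ_depth circ_outputs bits Circuit
  rootBit ByCircuit ByProgram small_space small_time card_var card_node_le' run_le)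
open Pool.Agent.W997.TS (DBP bit Node cnt)

/-- Every nondeterministic branching program which has an accepting computation exactly on the
inputs on which `f` is true, and on each of them one with at most `t` steps, has a log size of more
than `s`. -/
def NondetHard {V : Type} {k : ℕ} (f : (V → Fin k) → Bool) (s t : ℝ) : Prop :=
  ∀ P : BP V k, (∀ x, (∃ l, P.IsComp x l true) ↔ f x = true) →
    (∀ x, f x = true → ∃ l, P.IsComp x l true ∧ (l.length : ℝ) ≤ t) → s < Real.log P.size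

/-- All parameters. -/
structure Par (θ ζ δ : ℝ) (m a p q h ℓ N : ℕ) : Prop where
  hθ0 : 0 ≤ θ
  hθ : 4 * θ = 1 - ζ
  hmζ : 2 ≤ m * ζ
  hζ : 0 < ζ
  hδ : 0 < δ
  hm : 1 ≤ m
  ha : 16 * (m + 1) ≤ a
  haδ : 3 ≤ a * δ
  hp1 : 144 * (m + 1) ≤ p
  hp2 : a + 5 ≤ p
  hq1 : 1 ≤ q
  hq : q ≤ 2 ^ p
  hh : h = q * (p + 2)
  hℓ : ℓ = a * p
  hN : N = Fintype.card (Var 2 p h (2 ^ ℓ))

namespace Par

variable {θ ζ δ : ℝ} {m a p q h ℓ N : ℕ}

theorem h1 (H : Par θ ζ δ m a p q h ℓ N) : 1 ≤ h := by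
  rw [H.hh]
  exact Nat.mul_pos H.hq1 (by omega)

theorem hh_le (H : Par θ ζ δ m a p q h ℓ N) : h + 1 ≤ 2 ^ (2 * p) := by
  have h0 := H.hp2
  have h2 : p + 3 ≤ 2 ^ p := by
    have h3 : ∀ n, 3 ≤ n → n + 3 ≤ 2 ^ n := by
      intro n hn
      induction n, hn using Nat.le_induction with
      | base => norm_num
      | succ n hn ih => rw [pow_succ]; omega
    exact h3 p (by omega)
  rw [H.hh]
  calc q * (p + 2) + 1 ≤ 2 ^ p * (p + 2) + 2 ^ p :=
        Nat.add_le_add (Nat.mul_le_mul_right _ H.hq) Nat.one_le_two_pow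
    _ = 2 ^ p * (p + 3) := by ring
    _ ≤ 2 ^ p * 2 ^ p := Nat.mul_le_mul_left _ h2
    _ = 2 ^ (2 * p) := by rw [← pow_add]; congr 1; ring

/-- The number of nodes. -/
theorem nodes (H : Par θ ζ δ m a p q h ℓ N) : (h + 1) * 2 ^ (p + 2) ≤ 2 ^ (4 * p) := by
  have := H.hp2
  calc (h + 1) * 2 ^ (p + 2) ≤ 2 ^ (2 * p) * 2 ^ (p + 2) := Nat.mul_le_mul_right _ H.hh_le
    _ = 2 ^ (3 * p + 2) := by rw [← pow_add]; congr 1; ring
    _ ≤ 2 ^ (4 * p) := Nat.pow_le_pow_right (by norm_num) (by omega)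

theorem N_eq (H : Par θ ζ δ m a p q h ℓ N) :
    N = h * (2 ^ (p + 2) * 2 ^ (2 * ℓ)) + 2 ^ (p + 2) := by
  rw [H.hN, card_var]
  have e1 : (2 ^ ℓ) ^ 2 = 2 ^ (2 * ℓ) := by rw [← pow_mul]; congr 1; ring
  rw [e1]
  ring

theorem N_ge (H : Par θ ζ δ m a p q h ℓ N) : 2 ^ (2 * ℓ) ≤ N := by
  rw [H.N_eq]
  have h2 := H.h1
  have h3 : 1 ≤ 2 ^ (p + 2) := Nat.one_le_two_pow
  calc 2 ^ (2 * ℓ) = 1 * (1 * 2 ^ (2 * ℓ)) := by ring
    _ ≤ h * (2 ^ (p + 2) * 2 ^ (2 * ℓ)) := Nat.mul_le_mul h2 (Nat.mul_le_mul_right _ h3)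
    _ ≤ _ := Nat.le_add_right _ _

theorem N_le (H : Par θ ζ δ m a p q h ℓ N) : N ≤ 2 ^ ((2 * a + 4) * p) := by
  rw [H.N_eq]
  have h3 : 1 ≤ 2 ^ (2 * ℓ) := Nat.one_le_two_pow
  calc h * (2 ^ (p + 2) * 2 ^ (2 * ℓ)) + 2 ^ (p + 2)
      ≤ h * (2 ^ (p + 2) * 2 ^ (2 * ℓ)) + 2 ^ (p + 2) * 2 ^ (2 * ℓ) :=
        Nat.add_le_add_left (Nat.le_mul_of_pos_right _ h3) _
    _ = (h + 1) * 2 ^ (p + 2) * 2 ^ (2 * ℓ) := by ring
    _ ≤ 2 ^ (4 * p) * 2 ^ (2 * ℓ) := Nat.mul_le_mul_right _ H.nodes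
    _ = 2 ^ ((2 * a + 4) * p) := by rw [← pow_add, H.hℓ]; congr 1; ring

theorem one_le_N (H : Par θ ζ δ m a p q h ℓ N) : 1 ≤ N := le_trans Nat.one_le_two_pow H.N_ge

theorem log_N (H : Par θ ζ δ m a p q h ℓ N) : 1.38 * (a * p : ℝ) ≤ Real.log N := by
  have h2 : ((2 : ℝ) ^ (2 * ℓ)) ≤ N := by exact_mod_cast H.N_ge
  have h3 := Real.log_le_log (by positivity) h2
  rw [Real.log_pow, H.hℓ] at h3
  push_cast at h3
  have h4 := Real.log_two_gt_d9
  have h5 : (0 : ℝ) ≤ a * p := by positivity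
  nlinarith

theorem ge_pow (H : Par θ ζ δ m a p q h ℓ N) : (2 : ℝ) ^ (6 * p) ≤ (N : ℝ) ^ δ := by
  have h2 : ((2 : ℝ) ^ (2 * ℓ)) ≤ N := by exact_mod_cast H.N_ge
  have h3 := H.haδ
  calc (2 : ℝ) ^ (6 * p) = (2 : ℝ) ^ ((6 * p : ℕ) : ℝ) := (Real.rpow_natCast _ _).symm
    _ ≤ (2 : ℝ) ^ (((2 * ℓ : ℕ) : ℝ) * δ) := by
        apply Real.rpow_le_rpow_of_exponent_le (by norm_num)
        rw [H.hℓ]
        push_cast
        have h4 : (0 : ℝ) ≤ p := Nat.cast_nonneg _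
        nlinarith
    _ = ((2 : ℝ) ^ (2 * ℓ)) ^ δ := by
        rw [Real.rpow_mul (by norm_num), Real.rpow_natCast]
    _ ≤ (N : ℝ) ^ δ := Real.rpow_le_rpow (by positivity) h2 H.hδ.le

theorem circuits (H : Par θ ζ δ m a p q h ℓ N) (g : Word 2 p) (i : Fin 2) :
    ByCircuit (rootBit g i : Input 2 p h (2 ^ ℓ) → Bool) ((N : ℝ) ^ 2)
      (q * Real.log N ^ 2) := by
  have ha := H.ha
  have hm := H.hm
  have hp2 := H.hp2
  have hℓ := H.hℓ
  have hh := H.hh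
  have hq1 := H.hq1
  have hℓ16 : 32 ≤ ℓ := by rw [hℓ]; nlinarith
  have hℓ0 : 0 < ℓ := by omega
  refine ⟨circ 2 p h ℓ hℓ0 g i, ?_, ?_, circ_outputs hℓ0 g i⟩
  · rw [circ_size]
    have h2 : 8 * (ℓ * (2 * ℓ + 1)) ≤ N := by
      refine le_trans ?_ H.N_ge
      have h3 : ∀ n, 5 ≤ n → 8 * (n * (2 * n + 1)) ≤ 2 ^ (2 * n) := by
        intro n hn
        induction n, hn using Nat.le_induction with
        | base => norm_num
        | succ n hn ih =>
          have e1 : 2 ^ (2 * (n + 1)) = 4 * 2 ^ (2 * n) := by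
            rw [mul_add, pow_add]; ring
          rw [e1]
          nlinarith
      exact h3 ℓ (by omega)
    have h4 : (h + 1) * 2 ^ (p + 1) * 2 * (ℓ * ((2 * ℓ + 1) * (2 ^ (2 * ℓ) * 4))) ≤ N ^ 2 := by
      have hh1 := H.h1
      have hN1 : h * (2 ^ (p + 2) * 2 ^ (2 * ℓ)) ≤ N := by
        rw [H.N_eq]
        exact Nat.le_add_right _ _
      calc (h + 1) * 2 ^ (p + 1) * 2 * (ℓ * ((2 * ℓ + 1) * (2 ^ (2 * ℓ) * 4)))
          ≤ (2 * h) * 2 ^ (p + 1) * 2 * (ℓ * ((2 * ℓ + 1) * (2 ^ (2 * ℓ) * 4))) := by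
            gcongr
            omega
        _ = (h * (2 ^ (p + 2) * 2 ^ (2 * ℓ))) * (8 * (ℓ * (2 * ℓ + 1))) := by ring
        _ ≤ N * N := Nat.mul_le_mul hN1 h2
        _ = N ^ 2 := by ring
    exact_mod_cast h4
  · have h1 := circ_depth (h := h) hℓ0 g i
    have h2 : ((circ 2 p h ℓ hℓ0 g i).depth : ℝ) ≤ h * (2 * (2 * ℓ) + 1) + 1 := by
      exact_mod_cast h1
    refine h2.trans ?_
    have h3 := H.log_N
    have hqR : (1 : ℝ) ≤ q := by exact_mod_cast hq1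
    have haR : (32 : ℝ) ≤ a := by
      have : 32 ≤ a := by omega
      exact_mod_cast this
    have hpR : (37 : ℝ) ≤ p := by
      have : 37 ≤ p := by omega
      exact_mod_cast this
    have h4 : (h : ℝ) = q * (p + 2) := by rw [hh]; push_cast; ring
    have h5 : (ℓ : ℝ) = a * p := by rw [hℓ]; push_cast; ring
    rw [h4, h5]
    have h6 : (1.38 * (a * p : ℝ)) ^ 2 ≤ Real.log N ^ 2 :=
      pow_le_pow_left₀ (by positivity) h3 2
    have h7 : (1.9 : ℝ) * (a * p) ^ 2 ≤ Real.log N ^ 2 := by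
      have h8 : (1.38 * (a * p : ℝ)) ^ 2 = 1.9044 * (a * p) ^ 2 := by ring
      nlinarith [sq_nonneg ((a : ℝ) * p)]
    have h8 : (q : ℝ) * (p + 2) * (2 * (2 * (a * p)) + 1) + 1 ≤ q * (1.9 * (a * p) ^ 2) := by
      have e1 : (p : ℝ) + 2 ≤ 1.1 * p := by linarith
      have e2 : (2 : ℝ) * (2 * (a * p)) + 1 ≤ 4.1 * (a * p) := by nlinarith
      have e3 : (q : ℝ) * (p + 2) * (2 * (2 * (a * p)) + 1) ≤ q * (1.1 * p) * (4.1 * (a * p)) := by
        gcongr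
      have e4 : (q : ℝ) * (1.1 * p) * (4.1 * (a * p)) = 4.51 * (q * (a * p ^ 2)) := by ring
      have e5 : (q : ℝ) * (1.9 * (a * p) ^ 2) = 1.9 * a * (q * (a * p ^ 2)) := by ring
      have e6 : (1 : ℝ) ≤ q * (a * p ^ 2) := by
        have : (1 : ℝ) ≤ p ^ 2 := by nlinarith
        nlinarith [mul_le_mul (show (1 : ℝ) ≤ a by linarith) this (by norm_num) (by linarith)]
      rw [e4] at e3
      rw [e5]
      nlinarith
    calc (q : ℝ) * (p + 2) * (2 * (2 * (a * p)) + 1) + 1 ≤ q * (1.9 * (a * p) ^ 2) := h8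
      _ ≤ q * Real.log N ^ 2 := mul_le_mul_of_nonneg_left h7 (by linarith)

theorem space (H : Par θ ζ δ m a p q h ℓ N) (g : Word 2 p) (i : Fin 2) :
    ByProgram (rootBit g i : Input 2 p h (2 ^ ℓ) → Bool) (q * Real.log N ^ 2) ((N : ℝ) ^ q)
      ((N : ℝ) ^ δ) := by
  have ha := H.ha
  have hm := H.hm
  have hp2 := H.hp2
  have hℓ := H.hℓ
  have hh := H.hh
  have hq1 := H.hq1
  have hqR : (1 : ℝ) ≤ q := by exact_mod_cast hq1
  have haR : (32 : ℝ) ≤ a := by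
    have : 32 ≤ a := by omega
    exact_mod_cast this
  have hpR : (37 : ℝ) ≤ p := by
    have : 37 ≤ p := by omega
    exact_mod_cast this
  obtain ⟨P, h1, h2⟩ := small_space (ρ := p) (h := h) (k := 2 ^ ℓ) (D := 2) (by norm_num)
    (by positivity) g i
  refine ⟨P, ?_, ?_⟩
  · rw [h1]
    have h3 : Fintype.card (Node 2 h) * ((2 ^ ℓ) ^ 2) ^ (h + 1) ≤ 2 ^ ((2 * ℓ + 1) * (h + 1)) := by
      calc Fintype.card (Node 2 h) * ((2 ^ ℓ) ^ 2) ^ (h + 1)
          ≤ 2 ^ (h + 1) * ((2 ^ ℓ) ^ 2) ^ (h + 1) :=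
            Nat.mul_le_mul_right _ (card_node_le' le_rfl)
        _ = 2 ^ ((2 * ℓ + 1) * (h + 1)) := by
            rw [← mul_pow, ← pow_mul, ← pow_succ', ← pow_mul]
            congr 1
            ring
    have h5 : 0 < Fintype.card (Node 2 h) := Fintype.card_pos_iff.2 ⟨⟨[], Nat.zero_le _⟩⟩
    have h7 : 0 < Fintype.card (Node 2 h) * ((2 ^ ℓ) ^ 2) ^ (h + 1) := by positivity
    have h6 : ((Fintype.card (Node 2 h) * ((2 ^ ℓ) ^ 2) ^ (h + 1) : ℕ) : ℝ) ≤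
        (2 : ℝ) ^ ((2 * ℓ + 1) * (h + 1)) := by exact_mod_cast h3
    have h8 := Real.log_le_log (by exact_mod_cast h7) h6
    rw [Real.log_pow] at h8
    refine h8.trans ?_
    have h9 := Real.log_two_lt_d9
    have h10 : Real.log 2 ≤ 0.7 := by linarith
    have h11 := H.log_N
    have h12 : (1.38 * (a * p : ℝ)) ^ 2 ≤ Real.log N ^ 2 :=
      pow_le_pow_left₀ (by positivity) h11 2
    have h13 : (1.9 : ℝ) * (a * p) ^ 2 ≤ Real.log N ^ 2 := by
      have h8 : (1.38 * (a * p : ℝ)) ^ 2 = 1.9044 * (a * p) ^ 2 := by ring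
      nlinarith [sq_nonneg ((a : ℝ) * p)]
    have h14 : (((2 * ℓ + 1) * (h + 1) : ℕ) : ℝ) ≤ 2.6 * (q * (a * p ^ 2)) := by
      rw [hh, hℓ]
      push_cast
      have e1 : (2 : ℝ) * (a * p) + 1 ≤ 2.1 * (a * p) := by nlinarith
      have e2 : (q : ℝ) * (p + 2) + 1 ≤ 1.2 * (q * p) := by nlinarith
      calc (2 * ((a : ℝ) * p) + 1) * (q * (p + 2) + 1) ≤ 2.1 * (a * p) * (1.2 * (q * p)) :=
            mul_le_mul e1 e2 (by positivity) (by positivity)
        _ = 2.52 * (q * (a * p ^ 2)) := by ring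
        _ ≤ 2.6 * (q * (a * p ^ 2)) :=
            mul_le_mul_of_nonneg_right (by norm_num) (by positivity)
    have hlog2 : 0 ≤ Real.log 2 := Real.log_nonneg (by norm_num)
    calc (((2 * ℓ + 1) * (h + 1) : ℕ) : ℝ) * Real.log 2
        ≤ 2.6 * (q * (a * p ^ 2)) * 0.7 := mul_le_mul h14 h10 hlog2 (by positivity)
      _ = 1.82 * (q * (a * p ^ 2)) := by ring
      _ ≤ 1.9 * a * (q * (a * p ^ 2)) := by
          refine mul_le_mul_of_nonneg_right ?_ (by positivity)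
          linarith
      _ = q * (1.9 * (a * p) ^ 2) := by ring
      _ ≤ q * Real.log N ^ 2 := mul_le_mul_of_nonneg_left h13 (by linarith)
  · intro x
    obtain ⟨μ, h3, h4⟩ := h2 x
    refine ⟨_, μ, ?_, ?_, h4⟩
    · have h5 := Pool.Agent.W997.TS.cnt_le 2 le_rfl h
      have h6 : cnt 2 h ≤ N ^ q := by
        calc cnt 2 h ≤ 2 ^ (h + 1) := by omega
          _ ≤ (2 ^ (2 * ℓ)) ^ q := by
              rw [← pow_mul]
              refine Nat.pow_le_pow_right (by norm_num) ?_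
              rw [hh, hℓ]
              have e1 : q * (p + 2) + 1 ≤ q * (p + 3) := by nlinarith
              have e2 : p + 3 ≤ 2 * (a * p) := by nlinarith
              calc q * (p + 2) + 1 ≤ q * (p + 3) := e1
                _ ≤ q * (2 * (a * p)) := Nat.mul_le_mul_left _ e2
                _ = 2 * (a * p) * q := by ring
          _ ≤ N ^ q := Nat.pow_le_pow_left H.N_ge q
      exact_mod_cast h6
    · refine le_trans ?_ H.ge_pow
      have h6 : μ ≤ 2 ^ (6 * p) := by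
        calc μ ≤ (h + 1) * 2 ^ (p + 1) * 2 := h3
          _ = (h + 1) * 2 ^ (p + 2) := by ring
          _ ≤ 2 ^ (4 * p) := H.nodes
          _ ≤ 2 ^ (6 * p) := Nat.pow_le_pow_right (by norm_num) (by omega)
      exact_mod_cast h6

theorem time (H : Par θ ζ δ m a p q h ℓ N) (g : Word 2 p) (i : Fin 2) :
    ByProgram (rootBit g i : Input 2 p h (2 ^ ℓ) → Bool) ((N : ℝ) ^ δ) ((N : ℝ) ^ δ)
      ((N : ℝ) ^ δ) := by
  obtain ⟨P, h1, h2⟩ := small_time (ρ := p) (h := h) (k := 2 ^ ℓ) (D := 2) (by norm_num)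
    (by positivity) g i
  have hp2 := H.hp2
  have e1 : (h + 1) * (2 ^ (p + 1) * 2) = (h + 1) * 2 ^ (p + 2) := by ring
  rw [e1] at h1 h2
  have h3 := H.nodes
  set n := (h + 1) * 2 ^ (p + 2) with hn
  have hn1 : 1 ≤ n := by
    rw [hn]
    exact Nat.one_le_iff_ne_zero.2 (by positivity)
  have h4 : n * (1 + ℓ) ≤ 2 ^ (6 * p) := by
    have e2 : 1 + ℓ ≤ 2 ^ (2 * p) := by
      rw [H.hℓ]
      have e3 : p < 2 ^ p := Nat.lt_two_pow_self
      calc 1 + a * p ≤ 2 ^ p * 2 ^ p := by nlinarith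
        _ = 2 ^ (2 * p) := by rw [← pow_add]; congr 1; ring
    calc n * (1 + ℓ) ≤ 2 ^ (4 * p) * 2 ^ (2 * p) := Nat.mul_le_mul h3 e2
      _ = 2 ^ (6 * p) := by rw [← pow_add]; congr 1; ring
  have h5 : (n : ℝ) * (1 + ℓ) ≤ (N : ℝ) ^ δ := by
    refine le_trans ?_ H.ge_pow
    exact_mod_cast h4
  have hn0 : (1 : ℝ) ≤ n := by exact_mod_cast hn1
  have hℓ0 : (0 : ℝ) ≤ ℓ := by positivity
  refine ⟨P, ?_, ?_⟩
  · rw [h1]
    push_cast
    rw [Real.log_mul (by positivity) (by positivity), Real.log_pow, Real.log_pow]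
    have h6 : Real.log n ≤ n := (Real.log_le_sub_one_of_pos (by linarith)).trans (by linarith)
    have h7 : Real.log 2 ≤ 1 := by
      have := Real.log_two_lt_d9
      linarith
    have h8 : (n : ℝ) * (ℓ * Real.log 2) ≤ n * ℓ := by
      apply mul_le_mul_of_nonneg_left _ (by linarith)
      nlinarith
    nlinarith
  · intro x
    obtain ⟨μ, h6⟩ := h2 x
    have h7 : (n : ℝ) ≤ (N : ℝ) ^ δ := by nlinarith
    have h8 : (μ : ℝ) ≤ n := by exact_mod_cast run_le P h6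
    exact ⟨_, μ, h7, h8.trans h7, h6⟩

end Par

end Pool.Agent.W994.NC
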