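import Pool.Agent.W994.NC.Graph
import Pool.Agent.W997.DB.Defs

/-!
# The tradeoff for the variables of the unrolled De Bruijn graph
-/

set_option autoImplicit false

namespace Pool.Agent.W994.NC

open Finset
open Pool.Agent.W994.DE
open Pool.Agent.W994.DE.Dag
open Pool.Agent.H554R2.Thrifty (BP)
open Pool.Agent.W997.DB (Word shift Input)

variable {ρ h k : ℕ}

/-- A word and a letter give a longer word. -/
def app (g : Word 2 ρ) (i : Fin 2) : Wd (ρ + 1) := Fin.snoc (α := fun _ => Fin 2) g i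

theorem tail_app (g : Word 2 ρ) (i : Fin 2) : Fin.tail (app g i) = shift g i := by
  funext c
  show app g i c.succ = shift g i c
  by_cases h1 : c.val < ρ
  · obtain ⟨c', rfl⟩ : ∃ c' : Fin ρ, c = Fin.castSucc c' := ⟨⟨c.val, h1⟩, rfl⟩
    have h2 : (Fin.castSucc c').succ = Fin.castSucc c'.succ := rfl
    rw [app, shift, h2, Fin.snoc_castSucc, Fin.snoc_castSucc]
    rfl
  · have h2 : c = Fin.last ρ := Fin.ext (by have := c.2; simp only [Fin.val_last]; omega)
    rw [h2, app, shift, Fin.succ_last, Fin.snoc_last, Fin.snoc_last]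

theorem sh_app (g : Word 2 ρ) (i s : Fin 2) : sh (app g i) s = app (shift g i) s := by
  rw [sh, tail_app]
  rfl

theorem lt_two_deg {L h : ℕ} {v : (dbg L h).V} (σ : Fin ((dbg L h).deg v)) :
    v.1.val ≠ 0 ∧ σ.val < 2 := lt_two_of σ.2

/-- The variables as variables of the graph. -/
def enc : Pool.Agent.W997.DB.Var 2 ρ h k → (dbg (ρ + 1) h).Var k
  | Sum.inl (j, g, i, t) => ⟨(j.succ, app g i), fun σ => t ⟨σ.val, (lt_two_deg σ).2⟩⟩
  | Sum.inr (g, i) => ⟨((0 : Fin (h + 1)), app g i), fun σ => absurd rfl (lt_two_deg σ).1⟩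

theorem value_enc (x : (dbg (ρ + 1) h).Var k → Fin k) : ∀ (j : ℕ) (hj : j ≤ h) (g : Word 2 ρ)
    (i : Fin 2), Pool.Agent.W997.DB.value (fun v => x (enc v)) j hj g i =
      value x ((⟨j, Nat.lt_succ_of_le hj⟩, app g i) : (dbg (ρ + 1) h).V) := by
  intro j
  induction j with
  | zero =>
    intro hj g i
    rw [value_eq, Pool.Agent.W997.DB.value]
    refine congrArg x (Sigma.ext rfl (heq_of_eq (funext fun σ => ?_)))
    exact absurd rfl (lt_two_deg σ).1
  | succ j ih =>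
    intro hj g i
    rw [value_eq, Pool.Agent.W997.DB.value]
    refine congrArg x (Sigma.ext rfl (heq_of_eq (funext fun σ => ?_)))
    show Pool.Agent.W997.DB.value (fun v => x (enc v)) j (Nat.le_of_succ_le hj) (shift g i)
      ⟨σ.val, (lt_two_deg σ).2⟩ = value x _
    rw [ih]
    refine congrArg (value x) (Prod.ext (Fin.ext rfl) ?_)
    exact (sh_app g i _).symm

/-- The program over the variables of the graph. -/
def ren (P : BP (Pool.Agent.W997.DB.Var 2 ρ h k) k) : BP ((dbg (ρ + 1) h).Var k) k where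
  State := P.State
  fintype := P.fintype
  start := P.start
  query := fun q => enc (P.query q)
  edge := P.edge

theorem trav_ren (P : BP (Pool.Agent.W997.DB.Var 2 ρ h k) k) (x : (dbg (ρ + 1) h).Var k → Fin k)
    (l : List P.State) : ∀ (s t : P.State ⊕ Bool),
    Trav (ren P) x l s t ↔ Trav P (fun v => x (enc v)) l s t := by
  induction l with
  | nil => intro s t; exact Iff.rfl
  | cons q l ih =>
    intro s t
    constructor
    · rintro ⟨h1, u, h2, h3⟩
      exact ⟨h1, u, h2, (ih u t).mp h3⟩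
    · rintro ⟨h1, u, h2, h3⟩
      exact ⟨h1, u, h2, (ih u t).mpr h3⟩

theorem isComp_ren (P : BP (Pool.Agent.W997.DB.Var 2 ρ h k) k)
    (x : (dbg (ρ + 1) h).Var k → Fin k) (l : List P.State) (r : Bool) :
    (ren P).IsComp x l r ↔ P.IsComp (fun v => x (enc v)) l r :=
  isComp_iff.trans ((trav_ren P x l _ _).trans isComp_iff.symm)

/-- The time-space tradeoff: a program with `2 ^ s` states and accepting computations of at most
`2 ^ τ` steps. -/
theorem tradeoff {ρ q h k m τ s : ℕ} (hq : 1 ≤ q) (hh : h = q * (ρ + 2))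
    {S : Fin k → Bool} {a₀ δ : Fin k} (hSa : S a₀ = true) (hSδ : S δ = false) (g0 : Word 2 ρ)
    (i0 : Fin 2) (P : BP (Pool.Agent.W997.DB.Var 2 ρ h k) k)
    (hP : ∀ x : Input 2 ρ h k, (∃ l, P.IsComp x l true) ↔
      S (Pool.Agent.W997.DB.value x h le_rfl g0 i0) = true)
    (hT : ∀ x : Input 2 ρ h k, S (Pool.Agent.W997.DB.value x h le_rfl g0 i0) = true →
      ∃ l, P.IsComp x l true ∧ l.length ≤ 2 ^ τ)
    (hs : P.size ≤ 2 ^ s)
    (hk : (8 * 4 ^ τ * ((h + 1) * 2 ^ (ρ + 2)) * ((h + 1) * 2 ^ (ρ + 2) + 1)) ^ (m + 1) ≤ k ^ m)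
    (hk' : 16 * 4 ^ τ * ((h + 1) * 2 ^ (ρ + 2) + 1) < k) {g : ℕ}
    (hg : 2 ^ g * (2 * ((m + 1) * (3 + 2 * s / Nat.log 2 k))) ≤ 2 ^ (ρ + 1)) :
    g * q ≤ τ := by
  subst hh
  set r : (dbg (ρ + 1) (q * (ρ + 2))).V :=
    (⟨q * (ρ + 2), Nat.lt_succ_of_le le_rfl⟩, app g0 i0) with hr
  have hcard : Fintype.card (dbg (ρ + 1) (q * (ρ + 2))).V = (q * (ρ + 2) + 1) * 2 ^ (ρ + 2) :=
    dbg_card (ρ + 1) (q * (ρ + 2))
  have hD : Decides (ren P) r S := by
    intro x
    rw [← value_enc x (q * (ρ + 2)) le_rfl g0 i0, ← hP (fun v => x (enc v))]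
    exact exists_congr fun l => isComp_ren P x l true
  have hT' : ∀ x, S (value x r) = true → ∃ l, (ren P).IsComp x l true ∧ l.length ≤ 2 ^ τ := by
    intro x hx
    rw [← value_enc x (q * (ρ + 2)) le_rfl g0 i0] at hx
    obtain ⟨l, h1, h2⟩ := hT (fun v => x (enc v)) hx
    exact ⟨l, (isComp_ren P x l true).mpr h1, h2⟩
  obtain ⟨E, h1, h2, h3⟩ := main_str (m := m) hD hSa hSδ (dbg_deg_le _ _) (by norm_num) hT' hs (by
    rw [hcard]
    refine le_trans (le_of_eq ?_) hk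
    congr 1
    ring) (by
    rw [hcard]
    refine lt_of_le_of_lt (le_of_eq ?_) hk'
    ring)
  have hφ : 1 ≤ (m + 1) * (3 + 2 * s / Nat.log 2 k) :=
    Nat.mul_pos (Nat.succ_pos m) (Nat.lt_of_lt_of_le (by norm_num) (Nat.le_add_right 3 _))
  have hnd : nd (ρ + 1) (q * (ρ + 1 + 1)) (q * (ρ + 1 + 1)) (app g0 i0) = r := by
    refine Prod.ext (Fin.ext ?_) rfl
    show min (q * (ρ + 1 + 1)) (q * (ρ + 1 + 1)) = q * (ρ + 2)
    rw [Nat.min_self]
  exact levels (L := ρ + 1) hq hφ hg (w := app g0 i0) h1 h2 (fun i hi => h3 i (by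
    rw [hnd] at hi
    exact hi))

end Pool.Agent.W994.NC
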