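import Pool.Agent.W994.NC.Hard

/-!
# The final statement
-/

set_option autoImplicit false

namespace Pool.Agent.W994.NC

open Finset
open Pool.Agent.H554R2.Thrifty (BP)
open Pool.Agent.W997.DB (Word Var Input value rootBit ByCircuit ByProgram)
open Pool.Agent.W997.TS (bit)

theorem exists_par {θ δ : ℝ} (hθ0 : 0 ≤ θ) (hθ : θ < 1 / 4) (hδ : 0 < δ) :
    ∃ (ζ : ℝ) (m a : ℕ), 4 * θ = 1 - ζ ∧ 2 ≤ m * ζ ∧ 0 < ζ ∧ 1 ≤ m ∧ 16 * (m + 1) ≤ a ∧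
      3 ≤ a * δ := by
  set ζ := 1 - 4 * θ with hζ
  have hζ0 : 0 < ζ := by rw [hζ]; linarith
  obtain ⟨m, hm⟩ := exists_nat_gt (2 / ζ)
  obtain ⟨a, ha⟩ := exists_nat_gt (3 / δ)
  have hm0 : (0 : ℝ) < m := lt_trans (by positivity) hm
  rw [div_lt_iff₀ hζ0] at hm
  rw [div_lt_iff₀ hδ] at ha
  refine ⟨ζ, m, a + 16 * (m + 1), by rw [hζ]; ring, hm.le, hζ0, by exact_mod_cast hm0, by omega, ?_⟩
  push_cast
  nlinarith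

theorem final (θ δ : ℝ) (hθ0 : 0 ≤ θ) (hθ : θ < 1 / 4) (hδ : 0 < δ) :
    ∃ (a q₀ p₀ : ℕ) (c : ℝ), 0 < c ∧ ∀ p : ℕ, p₀ ≤ p → ∀ q : ℕ, q₀ ≤ q → q ≤ 2 ^ p →
    ∀ h : ℕ, h = q * (p + 2) → ∀ ℓ : ℕ, ℓ = a * p →
    ∀ N : ℕ, N = Fintype.card (Var 2 p h (2 ^ ℓ)) →
    ∀ (g : Word 2 p) (i : Fin 2) (f : Input 2 p h (2 ^ ℓ) → Bool), f = rootBit g i →
      ByCircuit f ((N : ℝ) ^ 2) (q * Real.log N ^ 2) ∧
      ByProgram f (q * Real.log N ^ 2) ((N : ℝ) ^ q) ((N : ℝ) ^ δ) ∧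
      ByProgram f ((N : ℝ) ^ δ) ((N : ℝ) ^ δ) ((N : ℝ) ^ δ) ∧
      NondetHard f ((N : ℝ) ^ c) ((N : ℝ) ^ θ) ∧
      NondetHard (fun x => !f x) ((N : ℝ) ^ c) ((N : ℝ) ^ θ) := by
  obtain ⟨ζ, m, a, h1, h2, h3, h4, h5, h6⟩ := exists_par hθ0 hθ hδ
  refine ⟨a, 2 * a + 8, max (144 * (m + 1)) (a + 5), 1 / (8 * ((a : ℝ) + 2)), by positivity, ?_⟩
  intro p hp q hq hq' h hh ℓ hℓ N hN g i f hf
  have H : Par θ ζ δ m a p q h ℓ N :=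
    ⟨hθ0, h1, h2, h3, hδ, h4, h5, h6, le_trans (le_max_left _ _) hp,
      le_trans (le_max_right _ _) hp, by omega, hq', hh, hℓ, hN⟩
  have hℓ1 : 1 ≤ ℓ := by
    have hp1 := H.hp2
    rw [hℓ]
    exact Nat.mul_pos (by omega) (by omega)
  have h2ℓ : 2 ≤ 2 ^ ℓ := by
    calc 2 = 2 ^ 1 := (pow_one _).symm
      _ ≤ 2 ^ ℓ := Nat.pow_le_pow_right (by norm_num) hℓ1
  have e0 : bit (⟨0, by omega⟩ : Fin (2 ^ ℓ)) = true := rfl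
  have e1 : bit (⟨1, by omega⟩ : Fin (2 ^ ℓ)) = false := rfl
  subst hf
  refine ⟨H.circuits g i, H.space g i, H.time g i, ?_, ?_⟩
  · exact H.hard hq (S := bit) e0 e1 g i
  · refine H.hard hq (S := fun c => !bit c) (a₀ := ⟨1, by omega⟩) (b₀ := ⟨0, by omega⟩) ?_ ?_ g i
    · show (!bit (⟨1, by omega⟩ : Fin (2 ^ ℓ))) = true
      rw [e1]
      rfl
    · show (!bit (⟨0, by omega⟩ : Fin (2 ^ ℓ))) = false
      rw [e0]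
      rfl

end Pool.Agent.W994.NC
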