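import Pool.Agent.W994.DE.Main3

/-!
# The unrolled De Bruijn graph and its hierarchical structures
-/

set_option autoImplicit false

namespace Pool.Agent.W994.NC

open Finset
open Pool.Agent.W994.DE
open Pool.Agent.W994.DE.Dag

/-- Words of length `L + 1`. -/
abbrev Wd (L : ℕ) : Type := Fin (L + 1) → Fin 2

/-- Forget the first letter and append a letter. -/
def sh {L : ℕ} (w : Wd L) (s : Fin 2) : Wd L := Fin.snoc (α := fun _ => Fin 2) (Fin.tail w) s

theorem sh_lt {L : ℕ} (w : Wd L) (s : Fin 2) (c : Fin (L + 1)) (h : c.val + 1 < L + 1) :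
    sh w s c = w ⟨c.val + 1, h⟩ := by
  obtain ⟨c', rfl⟩ : ∃ c' : Fin L, c = Fin.castSucc c' := ⟨⟨c.val, by omega⟩, rfl⟩
  rw [sh, Fin.snoc_castSucc]
  rfl

theorem sh_last {L : ℕ} (w : Wd L) (s : Fin 2) (c : Fin (L + 1)) (h : ¬ c.val + 1 < L + 1) :
    sh w s c = s := by
  have h2 : c = Fin.last L := Fin.ext (by have := c.2; simp only [Fin.val_last]; omega)
  rw [h2, sh, Fin.snoc_last]

theorem lt_two_of {b s : ℕ} (h : s < if b = 0 then 0 else 2) : b ≠ 0 ∧ s < 2 := by
  by_cases h0 : b = 0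
  · rw [if_pos h0] at h
    omega
  · rw [if_neg h0] at h
    exact ⟨h0, h⟩

/-- The unrolled De Bruijn graph: the nodes are the pairs of a height `j ≤ h` and a word; the
children of a node of height `j + 1` are the two nodes of height `j` whose words arise by a shift. -/
def dbg (L h : ℕ) : Dag where
  V := Fin (h + 1) × Wd L
  deg v := if v.1.val = 0 then 0 else 2
  kid v σ := (⟨v.1.val - 1, by have := v.1.2; omega⟩, sh v.2 ⟨σ.val, (lt_two_of σ.2).2⟩)
  rank v := v.1.val
  rank_lt v σ := by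
    have := (lt_two_of σ.2).1
    show v.1.val - 1 < v.1.val
    omega

theorem dbg_deg_le (L h : ℕ) (i : (dbg L h).V) : (dbg L h).deg i ≤ 2 := by
  show (if i.1.val = 0 then 0 else 2) ≤ 2
  split_ifs <;> omega

theorem dbg_card (L h : ℕ) : Fintype.card (dbg L h).V = (h + 1) * 2 ^ (L + 1) := by
  show Fintype.card (Fin (h + 1) × Wd L) = _
  rw [Fintype.card_prod, Fintype.card_fun, Fintype.card_fin, Fintype.card_fin, Fintype.card_fin]

/-- The node of height `j` (if `j ≤ h`) with the word `w`. -/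
def nd (L h j : ℕ) (w : Wd L) : (dbg L h).V :=
  (⟨min j h, Nat.lt_succ_of_le (Nat.min_le_right _ _)⟩, w)

theorem nd_kid {L h j : ℕ} (hj : j + 1 ≤ h) (w : Wd L) (s : Fin 2) :
    ∃ σ, (dbg L h).kid (nd L h (j + 1) w) σ = nd L h j (sh w s) := by
  have h1 : min (j + 1) h = j + 1 := Nat.min_eq_left hj
  have h2 : min j h = j := Nat.min_eq_left (by omega)
  refine ⟨⟨s.val, ?_⟩, ?_⟩
  · show s.val < if min (j + 1) h = 0 then 0 else 2
    rw [h1, if_neg (by omega)]
    exact s.2
  · refine Prod.ext (Fin.ext ?_) rfl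
    show min (j + 1) h - 1 = min j h
    omega

/-- Concatenation of two words. -/
def cat {L : ℕ} (w u : Wd L) (c : ℕ) : Fin 2 :=
  if h : c < L + 1 then w ⟨c, h⟩ else if h : c - (L + 1) < L + 1 then u ⟨c - (L + 1), h⟩ else 0

theorem cat_lt {L : ℕ} (w u : Wd L) (c : Fin (L + 1)) : cat w u c.val = w c := by
  rw [cat, dif_pos c.2]

theorem cat_ge {L : ℕ} (w u : Wd L) (c : Fin (L + 1)) : cat w u (c.val + (L + 1)) = u c := by
  have h1 : c.val + (L + 1) - (L + 1) < L + 1 := by have := c.2; omega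
  rw [cat, dif_neg (by omega), dif_pos h1]
  congr 1
  apply Fin.ext
  simp

/-- The word of the path from `w` to `u` after `t` steps. -/
def mix {L : ℕ} (t : ℕ) (w u : Wd L) : Wd L := fun c => cat w u (c.val + t)

/-- The letters which are not in `mix t w u`. -/
def rest {L : ℕ} (t : ℕ) (w u : Wd L) : Wd L := fun c => if c.val < t then w c else u c

theorem mix_zero {L : ℕ} (w u : Wd L) : mix 0 w u = w := by
  funext c
  exact cat_lt w u c

theorem mix_top {L : ℕ} (w u : Wd L) : mix (L + 1) w u = u := by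
  funext c
  exact cat_ge w u c

theorem sh_mix {L : ℕ} (t : ℕ) (w u : Wd L) :
    sh (mix t w u) (cat w u (t + (L + 1))) = mix (t + 1) w u := by
  funext c
  by_cases h : c.val + 1 < L + 1
  · rw [sh_lt _ _ _ h, mix, mix]
    congr 1
    show c.val + 1 + t = c.val + (t + 1)
    omega
  · rw [sh_last _ _ _ h, mix]
    congr 1
    have := c.2
    omega

theorem mix_inj {L t : ℕ} (ht : t ≤ L + 1) {w u w' u' : Wd L} (h : mix t w u = mix t w' u')
    (hr : rest t w u = rest t w' u') : w = w' ∧ u = u' := by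
  constructor
  · funext c
    by_cases hc : c.val < t
    · have h1 := congrFun hr c
      rwa [rest, rest, if_pos hc, if_pos hc] at h1
    · have h1 := congrFun h ⟨c.val - t, by have := c.2; omega⟩
      have e1 : c.val - t + t = c.val := by omega
      simp only [mix, e1] at h1
      rwa [cat_lt, cat_lt] at h1
  · funext c
    by_cases hc : c.val < t
    · have h1 := congrFun h ⟨c.val + (L + 1) - t, by omega⟩
      have e1 : c.val + (L + 1) - t + t = c.val + (L + 1) := by omega
      simp only [mix, e1] at h1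
      rwa [cat_ge, cat_ge] at h1
    · have h1 := congrFun hr c
      rwa [rest, rest, if_neg hc, if_neg hc] at h1

/-- The words of the nodes of height `j` which are not in `E`. -/
def out (L h j : ℕ) (E : Finset (dbg L h).V) : Finset (Wd L) :=
  univ.filter fun w => nd L h j w ∉ E

theorem mem_out {L h j : ℕ} {E : Finset (dbg L h).V} {w : Wd L} :
    w ∈ out L h j E ↔ nd L h j w ∉ E := by
  simp [out]

/-- A path from a node which is not in `E` to a node in `E` meets the boundary of `E`. -/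
theorem path_Bd {L h j : ℕ} (hj : j + (L + 1) ≤ h) {E : Finset (dbg L h).V} {w u : Wd L}
    (hw : nd L h (j + (L + 1)) w ∉ E) (hu : nd L h j u ∈ E) :
    ∃ t ≤ L + 1, nd L h (j + (L + 1) - t) (mix t w u) ∈ Bd E := by
  classical
  have hex : ∃ t, t ≤ L + 1 ∧ nd L h (j + (L + 1) - t) (mix t w u) ∈ E :=
    ⟨L + 1, le_rfl, by rw [mix_top, Nat.add_sub_cancel]; exact hu⟩
  have h1 := Nat.find_spec hex
  have h2 := fun t => Nat.find_min (m := t) hex
  set t := Nat.find hex with ht
  rcases Nat.eq_zero_or_pos t with h0 | hpos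
  · rw [h0, mix_zero, Nat.sub_zero] at h1
    exact absurd h1.2 hw
  · refine ⟨t, h1.1, mem_Bd.mpr ⟨h1.2, nd L h (j + (L + 1) - (t - 1)) (mix (t - 1) w u), ?_, ?_⟩⟩
    · intro h3
      exact h2 (t - 1) (by omega) ⟨by omega, h3⟩
    · have e1 : j + (L + 1) - (t - 1) = (j + (L + 1) - t) + 1 := by omega
      rw [e1]
      obtain ⟨σ, hσ⟩ := nd_kid (j := j + (L + 1) - t) (h := h) (by omega) (mix (t - 1) w u)
        (cat w u (t - 1 + (L + 1)))
      refine ⟨σ, ?_⟩
      rw [hσ, sh_mix]
      have e2 : t - 1 + 1 = t := by omega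
      rw [e2]

theorem card_Wd (L : ℕ) : Fintype.card (Wd L) = 2 ^ (L + 1) := by
  rw [Fintype.card_fun, Fintype.card_fin, Fintype.card_fin]

/-- Few pairs of a word of height `j + L + 1` outside of `E` and a word of height `j` in `E`. -/
theorem grate {L h j : ℕ} (hj : j + (L + 1) ≤ h) (E : Finset (dbg L h).V) :
    (out L h (j + (L + 1)) E).card * ((out L h j E)ᶜ).card ≤ (Bd E).card * 2 ^ (L + 1) := by
  classical
  have hex : ∀ z : Wd L × Wd L, ∃ t, z ∈ out L h (j + (L + 1)) E ×ˢ (out L h j E)ᶜ →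
      t ≤ L + 1 ∧ nd L h (j + (L + 1) - t) (mix t z.1 z.2) ∈ Bd E := by
    intro z
    by_cases hz : z ∈ out L h (j + (L + 1)) E ×ˢ (out L h j E)ᶜ
    · obtain ⟨h1, h2⟩ := mem_product.mp hz
      rw [mem_compl, mem_out, not_not] at h2
      obtain ⟨t, h3, h4⟩ := path_Bd hj (mem_out.mp h1) h2
      exact ⟨t, fun _ => ⟨h3, h4⟩⟩
    · exact ⟨0, fun h => absurd h hz⟩
  choose t ht using hex
  rw [← card_product]
  calc (out L h (j + (L + 1)) E ×ˢ (out L h j E)ᶜ).card
      ≤ (Bd E ×ˢ (univ : Finset (Wd L))).card := by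
        refine card_le_card_of_injOn (fun z => (nd L h (j + (L + 1) - t z) (mix (t z) z.1 z.2),
          rest (t z) z.1 z.2)) (fun z hz => ?_) ?_
        · exact mem_product.mpr ⟨(ht z hz).2, mem_univ _⟩
        · intro z hz z' hz' hzz
          obtain ⟨e1, e2⟩ := Prod.mk.inj hzz
          obtain ⟨e3, e4⟩ := Prod.mk.inj e1
          have e5 : min (j + (L + 1) - t z) h = min (j + (L + 1) - t z') h := congrArg Fin.val e3
          have g1 := (ht z hz).1
          have g2 := (ht z' hz').1
          have e6 : t z = t z' := by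
            rw [Nat.min_eq_left (by omega), Nat.min_eq_left (by omega)] at e5
            omega
          rw [e6] at e4 e2
          obtain ⟨e7, e8⟩ := mix_inj g2 e4 e2
          exact Prod.ext e7 e8
    _ = (Bd E).card * 2 ^ (L + 1) := by
        rw [card_product, card_univ, card_Wd]

/-- If many nodes of height `j + L + 1` are outside of `E`, then most nodes of height `j` are. -/
theorem out_half {L h j φ : ℕ} (hj : j + (L + 1) ≤ h) {E : Finset (dbg L h).V}
    (hB : (Bd E).card ≤ φ) (hφ : 1 ≤ φ) (ho : 2 * φ ≤ (out L h (j + (L + 1)) E).card) :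
    2 ^ L ≤ (out L h j E).card := by
  have h1 := grate hj E
  have h2 : ((out L h j E)ᶜ).card + (out L h j E).card = 2 ^ (L + 1) := by
    rw [Nat.add_comm, card_add_card_compl, card_Wd]
  have h3 : 2 * φ * ((out L h j E)ᶜ).card ≤ φ * 2 ^ (L + 1) :=
    (Nat.mul_le_mul_right _ ho).trans (h1.trans (Nat.mul_le_mul_right _ hB))
  have h4 : ((out L h j E)ᶜ).card ≤ 2 ^ L := by
    have h5 : φ * (2 * ((out L h j E)ᶜ).card) ≤ φ * 2 ^ (L + 1) := by
      calc φ * (2 * ((out L h j E)ᶜ).card) = 2 * φ * ((out L h j E)ᶜ).card := by ring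
        _ ≤ _ := h3
    have h6 := Nat.le_of_mul_le_mul_left h5 (by omega)
    rw [pow_succ] at h6
    omega
  rw [pow_succ] at h2
  omega

theorem nd_inj {L h j : ℕ} {w w' : Wd L} (hw : nd L h j w = nd L h j w') : w = w' :=
  (Prod.mk.inj hw).2

/-- One goes down in the hierarchy until only `2 φ` nodes are left. -/
theorem descent {L h φ : ℕ} (hφ : 1 ≤ φ) (j : ℕ) : ∀ (g e : ℕ) (E : Finset (dbg L h).V),
    Str φ e E → (Bd E).card ≤ φ → 2 ^ g * (2 * φ) ≤ (out L h j E).card →
    ∃ e' E', e' + g ≤ e ∧ Str φ e' E' ∧ (Bd E').card ≤ φ ∧ 2 * φ ≤ (out L h j E').card := by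
  classical
  intro g
  induction g with
  | zero =>
    intro e E hE hB ho
    rw [pow_zero, one_mul] at ho
    exact ⟨e, E, le_rfl, hE, hB, ho⟩
  | succ g ih =>
    intro e E hE hB ho
    have hpow : 1 ≤ 2 ^ g := Nat.one_le_two_pow
    cases e with
    | zero =>
      exfalso
      obtain ⟨i₀, h0⟩ := hE.inv_zero
      have h1 : (out L h j E).card ≤ 1 := by
        rw [card_le_one]
        intro w hw w' hw'
        rw [mem_out] at hw hw'
        have e1 : nd L h j w = i₀ := by
          by_contra hne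
          exact hw (h0 _ hne)
        have e2 : nd L h j w' = i₀ := by
          by_contra hne
          exact hw' (h0 _ hne)
        exact nd_inj (e1.trans e2.symm)
      have h2 : 2 ^ (g + 1) * (2 * φ) = 4 * (2 ^ g * φ) := by rw [pow_succ]; ring
      have h3 : 1 ≤ 2 ^ g * φ := Nat.mul_pos hpow hφ
      omega
    | succ e =>
      obtain ⟨E₁, E₂, h1, h2, hB1, hB2, hEE⟩ := hE.inv_succ
      have h3 : out L h j E ⊆ out L h j E₁ ∪ out L h j E₂ := by
        intro w hw
        rw [mem_union, mem_out, mem_out]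
        rw [mem_out] at hw
        by_contra hno
        rw [not_or, not_not, not_not] at hno
        exact hw (hEE (mem_inter.mpr hno))
      have h4 := (card_le_card h3).trans (card_union_le _ _)
      have h5 : 2 ^ (g + 1) * (2 * φ) = 2 ^ g * (2 * φ) + 2 ^ g * (2 * φ) := by
        rw [pow_succ]; ring
      rcases Nat.lt_or_ge (out L h j E₁).card (2 ^ g * (2 * φ)) with h6 | h6
      · obtain ⟨e', E', g1, g2⟩ := ih e E₂ h2 hB2 (by omega)
        exact ⟨e', E', by omega, g2⟩
      · obtain ⟨e', E', g1, g2⟩ := ih e E₁ h1 hB1 h6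
        exact ⟨e', E', by omega, g2⟩

/-- Each block costs `g` levels of the hierarchy. -/
theorem blocks {L h φ g : ℕ} (hφ : 1 ≤ φ) (hg : 2 ^ g * (2 * φ) ≤ 2 ^ L) : ∀ b : ℕ,
    b * (L + 1) ≤ h → ∀ (e : ℕ) (E : Finset (dbg L h).V), Str φ e E → (Bd E).card ≤ φ →
    2 * φ ≤ (out L h (b * (L + 1)) E).card → g * b ≤ e := by
  intro b
  induction b with
  | zero =>
    intro _ e E _ _ _
    rw [mul_zero]
    exact Nat.zero_le _
  | succ b ih =>
    intro hb e E hE hB ho
    have e1 : (b + 1) * (L + 1) = b * (L + 1) + (L + 1) := by ring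
    rw [e1] at hb ho
    have h1 := out_half hb hB hφ ho
    obtain ⟨e', E', g1, g2, g3, g4⟩ := descent hφ (b * (L + 1)) g e E hE hB (hg.trans h1)
    have h2 := ih (by omega) e' E' g2 g3 g4
    have h3 : g * (b + 1) = g * b + g := by ring
    omega

/-- All nodes of height `h - (L + 1)` are below each root. -/
theorem below_root {L h : ℕ} (hh : L + 1 ≤ h) (w u : Wd L) :
    (dbg L h).Below (nd L h h w) (nd L h (h - (L + 1)) u) := by
  have key : ∀ t, t ≤ L + 1 → (dbg L h).Below (nd L h h w) (nd L h (h - t) (mix t w u)) := by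
    intro t
    induction t with
    | zero =>
      intro _
      rw [mix_zero, Nat.sub_zero]
      exact Relation.ReflTransGen.refl
    | succ t ih =>
      intro ht
      have h1 := ih (by omega)
      have e1 : h - t = (h - (t + 1)) + 1 := by omega
      rw [e1] at h1
      obtain ⟨σ, hσ⟩ := nd_kid (L := L) (j := h - (t + 1)) (h := h) (by omega) (mix t w u)
        (cat w u (t + (L + 1)))
      rw [sh_mix] at hσ
      exact Relation.ReflTransGen.head ⟨σ, hσ⟩ h1
  have h1 := key (L + 1) le_rfl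
  rwa [mix_top] at h1

/-- A hierarchical structure for the unrolled De Bruijn graph has many levels. -/
theorem levels {L q φ g τ : ℕ} (hq : 1 ≤ q) (hφ : 1 ≤ φ) (hg : 2 ^ g * (2 * φ) ≤ 2 ^ L) {w : Wd L}
    {E : Finset (dbg L (q * (L + 1))).V} (hE : Str φ τ E) (hB : (Bd E).card ≤ φ)
    (hall : ∀ i, (dbg L (q * (L + 1))).Below (nd L (q * (L + 1)) (q * (L + 1)) w) i → i ∉ E) :
    g * q ≤ τ := by
  obtain ⟨b, rfl⟩ : ∃ b, q = b + 1 := ⟨q - 1, by omega⟩
  have e1 : (b + 1) * (L + 1) = b * (L + 1) + (L + 1) := by ring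
  have e2 : (b + 1) * (L + 1) - (L + 1) = b * (L + 1) := by omega
  have h1 : (out L ((b + 1) * (L + 1)) (b * (L + 1)) E) = univ := by
    rw [eq_univ_iff_forall]
    intro u
    rw [mem_out]
    refine hall _ ?_
    have h2 := below_root (h := (b + 1) * (L + 1)) (by omega) w u
    rwa [e2] at h2
  have h2 : 2 ^ g * (2 * φ) ≤ (out L ((b + 1) * (L + 1)) (b * (L + 1)) E).card := by
    rw [h1, card_univ, card_Wd, pow_succ]
    omega
  obtain ⟨e', E', g1, g2, g3, g4⟩ := descent hφ (b * (L + 1)) g τ E hE hB h2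
  have h3 := blocks hφ hg b (by omega) e' E' g2 g3 g4
  have h4 : g * (b + 1) = g * b + g := by ring
  omega

end Pool.Agent.W994.NC
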