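import Pool.Agent.W994.NC.Asym

/-!
# Small nondeterministic programs are slow
-/

set_option autoImplicit false

namespace Pool.Agent.W994.NC

open Finset
open Pool.Agent.W994.DE
open Pool.Agent.H554R2.Thrifty (BP)
open Pool.Agent.W997.DB (Word Var Input value circ circ_size circ_depth circ_outputs bits Circuit
  rootBit ByCircuit ByProgram small_space small_time card_var card_node_le' run_le)
open Pool.Agent.W997.TS (DBP bit Node cnt)

namespace Par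

variable {θ ζ δ : ℝ} {m a p q h ℓ N : ℕ}

theorem N_rpow_le (H : Par θ ζ δ m a p q h ℓ N) {e : ℝ} (he : 0 ≤ e) :
    (N : ℝ) ^ e ≤ (2 : ℝ) ^ ((2 * a + 4) * p * e : ℝ) := by
  have h1 : (N : ℝ) ≤ (2 : ℝ) ^ ((2 * a + 4) * p) := by exact_mod_cast H.N_le
  calc (N : ℝ) ^ e ≤ ((2 : ℝ) ^ ((2 * a + 4) * p)) ^ e :=
        Real.rpow_le_rpow (Nat.cast_nonneg _) h1 he
    _ = (2 : ℝ) ^ ((2 * a + 4) * p * e : ℝ) := by
        rw [← Real.rpow_natCast, ← Real.rpow_mul (by norm_num)]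
        push_cast
        rfl

theorem tau_le (H : Par θ ζ δ m a p q h ℓ N) {L : ℕ} (hL1 : 1 ≤ L) (hL : (L : ℝ) ≤ (N : ℝ) ^ θ) :
    ((Nat.log 2 L : ℕ) : ℝ) ≤ (2 * a + 4) * p * θ := by
  have h1 : (2 : ℝ) ^ (((Nat.log 2 L : ℕ) : ℝ)) ≤ (2 : ℝ) ^ ((2 * a + 4) * p * θ : ℝ) := by
    calc (2 : ℝ) ^ (((Nat.log 2 L : ℕ) : ℝ)) = ((2 ^ Nat.log 2 L : ℕ) : ℝ) := by
          rw [Real.rpow_natCast]; push_cast; rfl
      _ ≤ (L : ℝ) := Nat.cast_le.mpr (Nat.pow_log_le_self 2 (by omega))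
      _ ≤ (N : ℝ) ^ θ := hL
      _ ≤ _ := H.N_rpow_le H.hθ0
  exact (Real.rpow_le_rpow_left_iff (by norm_num)).mp h1

/-- The first condition. -/
theorem cond1 (H : Par θ ζ δ m a p q h ℓ N) {τ : ℕ} (hτ : (τ : ℝ) ≤ 1 + (2 * a + 4) * p * θ) :
    (4 + 2 * τ + 8 * p) * (m + 1) ≤ ℓ * m := by
  have h1 : ((4 : ℝ) + 2 * τ + 8 * p) * (m + 1) ≤ a * p * m := by
    have hp : (6 : ℝ) ≤ p := by
      have : 6 ≤ p := by have := H.hp1; omega
      exact_mod_cast this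
    have ha : (16 : ℝ) * (m + 1) ≤ a := by exact_mod_cast H.ha
    have hm : (1 : ℝ) ≤ m := by exact_mod_cast H.hm
    have e1 : (2 : ℝ) * ((2 * a + 4) * p * θ) = (1 - ζ) * ((a + 2) * p) := by
      rw [← H.hθ]; ring
    have e2 : ((4 : ℝ) + 2 * τ + 8 * p) ≤ 6 + 8 * p + (1 - ζ) * ((a + 2) * p) := by
      rw [← e1]; linarith
    have e3 : ((m : ℝ) + 1) * (1 - ζ) ≤ m - 1 := by
      have h2 := H.hmζ
      have h3 := H.hζ
      nlinarith
    have e4 : (0 : ℝ) ≤ (a + 2) * p := by positivity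
    calc ((4 : ℝ) + 2 * τ + 8 * p) * (m + 1)
        ≤ (6 + 8 * p + (1 - ζ) * ((a + 2) * p)) * (m + 1) :=
          mul_le_mul_of_nonneg_right e2 (by linarith)
      _ = (6 + 8 * p) * (m + 1) + ((m : ℝ) + 1) * (1 - ζ) * ((a + 2) * p) := by ring
      _ ≤ (6 + 8 * p) * (m + 1) + (m - 1) * ((a + 2) * p) := by
          gcongr
      _ ≤ a * p * m := by
          nlinarith [mul_le_mul_of_nonneg_right ha (show (0 : ℝ) ≤ p by linarith)]
  rw [H.hℓ]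
  exact_mod_cast h1

/-- The theorem for any pair of complementary answers. -/
theorem hard (H : Par θ ζ δ m a p q h ℓ N) (hqa : 2 * a + 8 ≤ q) {S : Fin (2 ^ ℓ) → Bool}
    {a₀ b₀ : Fin (2 ^ ℓ)} (hSa : S a₀ = true) (hSb : S b₀ = false) (g0 : Word 2 p) (i0 : Fin 2) :
    NondetHard (fun x : Input 2 p h (2 ^ ℓ) => S (value x h le_rfl g0 i0))
      ((N : ℝ) ^ (1 / (8 * ((a : ℝ) + 2)))) ((N : ℝ) ^ θ) := by
  intro P hP hT
  by_contra hlog
  push Not at hlog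
  have hN1 : (1 : ℝ) ≤ N := by exact_mod_cast H.one_le_N
  have hp1 := H.hp1
  have hp2 := H.hp2
  have ha1 := H.ha
  have hm1 := H.hm
  have hθ1 : 4 * θ ≤ 1 := by have := H.hζ; have := H.hθ; linarith
  have haR : (32 : ℝ) ≤ a := by
    have : 32 ≤ a := by omega
    exact_mod_cast this
  have hpR : (37 : ℝ) ≤ p := by
    have : 37 ≤ p := by omega
    exact_mod_cast this
  set X := (N : ℝ) ^ (1 / (8 * ((a : ℝ) + 2))) with hX
  have hX1 : 1 ≤ X := Real.one_le_rpow hN1 (by positivity)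
  set Y := (2 : ℝ) ^ ((p : ℝ) / 4) with hY
  have hXY : X ≤ Y := by
    refine (H.N_rpow_le (by positivity)).trans (le_of_eq ?_)
    rw [hY]
    congr 1
    field_simp
    ring
  have hY1 : 1 ≤ Y := hX1.trans hXY
  set s := ⌊2 * X⌋₊ + 1 with hs
  have hsX : 2 * X < s := by rw [hs]; exact_mod_cast Nat.lt_floor_add_one (2 * X)
  have hsY : (s : ℝ) ≤ 3 * Y := by
    rw [hs]
    push_cast
    have := Nat.floor_le (show 0 ≤ 2 * X by linarith)
    linarith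
  have hsize : P.size ≤ 2 ^ s := by
    have h1 : (0 : ℝ) < P.size := by
      have : 0 < P.size := Nat.succ_pos _
      exact_mod_cast this
    have h2 : Real.log P.size ≤ Real.log ((2 : ℝ) ^ s) := by
      rw [Real.log_pow]
      have h3 := Real.log_two_gt_d9
      have h4 : 2 * X * (1 / 2) ≤ s * Real.log 2 :=
        mul_le_mul hsX.le (by linarith) (by norm_num) (by positivity)
      linarith
    have h3 := (Real.log_le_log_iff h1 (by positivity)).mp h2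
    exact_mod_cast h3
  -- the number of steps
  set Z := (N : ℝ) ^ θ with hZ
  have hZ1 : 1 ≤ Z := Real.one_le_rpow hN1 H.hθ0
  set L := ⌊Z⌋₊ with hL
  have hL1 : 1 ≤ L := by rw [hL]; exact Nat.le_floor (by rw [Nat.cast_one]; exact hZ1)
  have hLZ : (L : ℝ) ≤ Z := Nat.floor_le (by linarith)
  set τ := Nat.log 2 L + 1 with hτ
  have hτ1 : L < 2 ^ τ := Nat.lt_pow_succ_log_self (by norm_num) L
  have hτ2 : (τ : ℝ) ≤ 1 + (2 * a + 4) * p * θ := by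
    rw [hτ]
    push_cast
    have := H.tau_le hL1 hLZ
    linarith
  have hT' : ∀ x : Input 2 p h (2 ^ ℓ), S (value x h le_rfl g0 i0) = true →
      ∃ l, P.IsComp x l true ∧ l.length ≤ 2 ^ τ := by
    intro x hx
    obtain ⟨l, h1, h2⟩ := hT x hx
    exact ⟨l, h1, (Nat.le_floor h2).trans hτ1.le⟩
  have c1 := H.cond1 hτ2
  have hn := H.nodes
  have hn1 : (h + 1) * 2 ^ (p + 2) + 1 ≤ 2 ^ (4 * p + 1) := by
    calc (h + 1) * 2 ^ (p + 2) + 1 ≤ 2 ^ (4 * p) + 2 ^ (4 * p) :=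
          Nat.add_le_add hn Nat.one_le_two_pow
      _ = 2 ^ (4 * p + 1) := by ring
  have h4τ : 4 ^ τ = 2 ^ (2 * τ) := by rw [pow_mul]; norm_num
  have hkA : (8 * 4 ^ τ * ((h + 1) * 2 ^ (p + 2)) * ((h + 1) * 2 ^ (p + 2) + 1)) ^ (m + 1) ≤
      (2 ^ ℓ) ^ m := by
    calc (8 * 4 ^ τ * ((h + 1) * 2 ^ (p + 2)) * ((h + 1) * 2 ^ (p + 2) + 1)) ^ (m + 1)
        ≤ (8 * 4 ^ τ * 2 ^ (4 * p) * 2 ^ (4 * p + 1)) ^ (m + 1) :=
          Nat.pow_le_pow_left (Nat.mul_le_mul (Nat.mul_le_mul_left _ hn) hn1) _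
      _ = 2 ^ ((4 + 2 * τ + 8 * p) * (m + 1)) := by
          rw [pow_mul 2 (4 + 2 * τ + 8 * p) (m + 1)]
          congr 1
          rw [h4τ, show (8 : ℕ) = 2 ^ 3 by norm_num, ← pow_add, ← pow_add, ← pow_add]
          congr 1
          ring
      _ ≤ 2 ^ (ℓ * m) := Nat.pow_le_pow_right (by norm_num) c1
      _ = (2 ^ ℓ) ^ m := by rw [pow_mul]
  have hkB : 16 * 4 ^ τ * ((h + 1) * 2 ^ (p + 2) + 1) < 2 ^ ℓ := by
    have c2 : 4 + 2 * τ + 8 * p ≤ ℓ := by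
      have h5 : (4 + 2 * τ + 8 * p) * (m + 1) ≤ ℓ * (m + 1) :=
        c1.trans (Nat.mul_le_mul_left _ (Nat.le_succ m))
      exact Nat.le_of_mul_le_mul_right h5 (Nat.succ_pos m)
    calc 16 * 4 ^ τ * ((h + 1) * 2 ^ (p + 2) + 1) ≤ 16 * 4 ^ τ * 2 ^ (4 * p + 1) :=
          Nat.mul_le_mul_left _ hn1
      _ = 2 ^ (5 + 2 * τ + 4 * p) := by
          rw [h4τ, show (16 : ℕ) = 2 ^ 4 by norm_num, ← pow_add, ← pow_add]
          congr 1
          ring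
      _ < 2 ^ ℓ := Nat.pow_lt_pow_right (by norm_num) (by omega)
  have hg : 2 ^ (p / 2) * (2 * ((m + 1) * (3 + 2 * s / Nat.log 2 (2 ^ ℓ)))) ≤ 2 ^ (p + 1) := by
    have h5 : 2 ^ (p / 2) * (2 * ((m + 1) * (3 + 2 * s / Nat.log 2 (2 ^ ℓ)))) ≤
        2 ^ (p / 2) * (2 * ((m + 1) * (3 + 2 * s))) :=
      Nat.mul_le_mul_left _ (Nat.mul_le_mul_left _ (Nat.mul_le_mul_left _
        (Nat.add_le_add_left (Nat.div_le_self _ _) _)))
    refine h5.trans ?_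
    have h6 : ((2 ^ (p / 2) : ℕ) : ℝ) ≤ Y ^ 2 := by
      have h7 : ((p / 2 : ℕ) : ℝ) ≤ (p : ℝ) / 2 := Nat.cast_div_le
      calc ((2 ^ (p / 2) : ℕ) : ℝ) = (2 : ℝ) ^ (((p / 2 : ℕ) : ℝ)) := by
            rw [Real.rpow_natCast]; push_cast; rfl
        _ ≤ (2 : ℝ) ^ ((p : ℝ) / 2) := Real.rpow_le_rpow_of_exponent_le (by norm_num) h7
        _ = Y ^ 2 := by
            rw [hY, ← Real.rpow_natCast, ← Real.rpow_mul (by norm_num)]
            congr 1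
            push_cast
            ring
    have h7 : ((2 : ℝ)) ^ (p + 1) = 2 * Y ^ 4 := by
      rw [pow_succ, mul_comm, hY, ← Real.rpow_natCast ((2 : ℝ) ^ ((p : ℝ) / 4)),
        ← Real.rpow_mul (by norm_num), ← Real.rpow_natCast]
      congr 2
      push_cast
      ring
    have h8 : (9 : ℝ) * (m + 1) ≤ Y := by
      have h9 : ((36 * (m + 1) : ℕ) : ℝ) ≤ (p : ℝ) / 4 := by
        have : ((144 * (m + 1) : ℕ) : ℝ) ≤ p := by exact_mod_cast hp1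
        push_cast at this ⊢
        linarith
      have h10 : ((36 * (m + 1) : ℕ) : ℝ) ≤ Y := by
        calc ((36 * (m + 1) : ℕ) : ℝ) ≤ ((2 ^ (36 * (m + 1)) : ℕ) : ℝ) :=
              Nat.cast_le.mpr Nat.lt_two_pow_self.le
          _ = (2 : ℝ) ^ (((36 * (m + 1) : ℕ)) : ℝ) := by
              rw [Real.rpow_natCast]; push_cast; rfl
          _ ≤ Y := Real.rpow_le_rpow_of_exponent_le (by norm_num) h9
      push_cast at h10
      have : (0 : ℝ) ≤ m := Nat.cast_nonneg _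
      linarith
    have h9 : ((2 ^ (p / 2) * (2 * ((m + 1) * (3 + 2 * s))) : ℕ) : ℝ) ≤ ((2 ^ (p + 1) : ℕ) : ℝ) := by
      have e1 : ((2 ^ (p + 1) : ℕ) : ℝ) = 2 * Y ^ 4 := by rw [← h7]; push_cast; rfl
      rw [e1, Nat.cast_mul]
      have h10 : ((2 * ((m + 1) * (3 + 2 * s)) : ℕ) : ℝ) ≤ 18 * (m + 1) * Y := by
        push_cast
        have e2 : (3 : ℝ) + 2 * s ≤ 9 * Y := by linarith
        have e3 : (0 : ℝ) ≤ (m : ℝ) + 1 := by positivity
        calc (2 : ℝ) * ((m + 1) * (3 + 2 * s)) ≤ 2 * ((m + 1) * (9 * Y)) := by gcongr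
          _ = 18 * (m + 1) * Y := by ring
      calc ((2 ^ (p / 2) : ℕ) : ℝ) * ((2 * ((m + 1) * (3 + 2 * s)) : ℕ) : ℝ)
          ≤ Y ^ 2 * (18 * (m + 1) * Y) :=
            mul_le_mul h6 h10 (Nat.cast_nonneg _) (by positivity)
        _ = 2 * Y ^ 3 * (9 * (m + 1)) := by ring
        _ ≤ 2 * Y ^ 3 * Y := mul_le_mul_of_nonneg_left h8 (by positivity)
        _ = 2 * Y ^ 4 := by ring
    exact_mod_cast h9
  have hfin := tradeoff (m := m) H.hq1 H.hh hSa hSb g0 i0 P hP hT' hsize hkA hkB hg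
  have hfin' : (((p / 2 : ℕ) : ℝ)) * q ≤ 1 + (2 * a + 4) * p * θ := by
    refine le_trans ?_ hτ2
    exact_mod_cast hfin
  have h5 : (p : ℝ) - 1 ≤ 2 * ((p / 2 : ℕ) : ℝ) := by
    have h6 : p ≤ 2 * (p / 2) + 1 := by omega
    have h7 : (p : ℝ) ≤ 2 * ((p / 2 : ℕ) : ℝ) + 1 := by exact_mod_cast h6
    linarith
  have h6 : (2 : ℝ) * a + 8 ≤ q := by exact_mod_cast hqa
  have h7 : ((p : ℝ) - 1) * (2 * a + 8) ≤ 2 * ((p / 2 : ℕ) : ℝ) * q :=
    mul_le_mul h5 h6 (by positivity) (by positivity)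
  have h8 : (2 : ℝ) * ((2 * a + 4) * p * θ) ≤ (a + 2) * p := by
    calc (2 : ℝ) * ((2 * a + 4) * p * θ) = (a + 2) * p * (4 * θ) := by ring
      _ ≤ (a + 2) * p * 1 := mul_le_mul_of_nonneg_left hθ1 (by positivity)
      _ = (a + 2) * p := by ring
  nlinarith

end Par

end Pool.Agent.W994.NC
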